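import Mathlib

namespace Pool.Agent.Results.MP_e9f532_co.Tagged

open Finset Pointwise

/-- The intersections of two different members of `A`. -/
def I {n : ℕ} (A : Finset (Finset (Fin n))) : Finset (Finset (Fin n)) :=
  A.offDiag.image fun p => p.1 ∩ p.2

theorem cd {n q B : ℕ} (hq : q.Prime) (φ : Fin n → ZMod q)
    (hB : ∀ R : Finset (Fin n), B < #R → ∃ a ∈ R, ∃ b ∈ R, φ a ≠ φ b) (t : ℕ) (R : Finset (Fin n))
    (h : B + 2 * t ≤ #R) : min q (t + 1) ≤ #((powersetCard t R).image fun τ => ∑ y ∈ τ, φ y) := by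
  induction t generalizing R with
  | zero => simp
  | succ t ih =>
    obtain ⟨a, ha, b, hb, hab⟩ := hB R (by omega)
    have ne : a ≠ b := fun e => hab (e ▸ rfl)
    have c : #((R.erase a).erase b) + 2 = #R := by
      rw [card_erase_of_mem (mem_erase.2 ⟨ne.symm, hb⟩), card_erase_of_mem ha]
      omega
    have i := ih ((R.erase a).erase b) (by omega)
    have p : 0 < min q (t + 1) := lt_min hq.pos t.succ_pos
    have k := ZMod.cauchy_davenport hq (card_pos.1 (p.trans_le i)) (insert_nonempty (φ a) {φ b})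
    rw [card_pair hab] at k
    refine le_trans (by omega) (k.trans (card_le_card fun x hx => ?_))
    obtain ⟨_, hy, z, hz, rfl⟩ := mem_add.1 hx
    obtain ⟨τ, hτ, rfl⟩ := mem_image.1 hy
    obtain ⟨s, d⟩ := mem_powersetCard.1 hτ
    have s' : τ ⊆ R := s.trans ((erase_subset _ _).trans (erase_subset _ _))
    have : ∀ w ∈ R, w ∉ τ → ∑ y ∈ τ, φ y + φ w ∈
        (powersetCard (t + 1) R).image fun τ => ∑ y ∈ τ, φ y := fun w h1 h2 =>
      mem_image.2 ⟨insert w τ, mem_powersetCard.2 ⟨insert_subset h1 s', by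
        rw [card_insert_of_notMem h2, d]⟩, by rw [sum_insert h2, add_comm]⟩
    rcases mem_insert.1 hz with rfl | hz
    · exact this a ha fun u => by simpa using s u
    · rw [mem_singleton.1 hz]
      exact this b hb fun u => by simpa using s u

variable {n : ℕ} (q T : ℕ)

def D (X : Finset (Fin n)) : Finset (Finset (Fin n)) :=
  {A | T < #(A ∩ X) ∧ #(A \ X) + #(A ∩ X) / q = T ∧
    ∑ y ∈ A \ X, ((y : ℕ) : ZMod q) = (#(A ∩ X) : ℕ)}

theorem same {X A B : Finset (Fin n)} (ha : A ∈ D q T X) (hb : B ∈ D q T X) (h : A ⊆ B) :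
    A = B := by
  obtain ⟨-, a1, a2⟩ := (mem_filter.1 ha).2
  obtain ⟨-, b1, b2⟩ := (mem_filter.1 hb).2
  have s1 : A ∩ X ⊆ B ∩ X := inter_subset_inter_right h
  have s2 : A \ X ⊆ B \ X := sdiff_subset_sdiff h Subset.rfl
  have c1 := card_le_card s2
  have c2 := Nat.div_le_div_right (c := q) (card_le_card s1)
  have e2 := eq_of_subset_of_card_le s2 (by omega)
  rw [e2, b2, ZMod.natCast_eq_natCast_iff'] at a2
  have e1 := eq_of_subset_of_card_le s1 (by
    rw [← Nat.div_add_mod #(B ∩ X) q, ← Nat.div_add_mod #(A ∩ X) q, a2,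
      show #(B ∩ X) / q = #(A ∩ X) / q by rw [e2] at a1; omega])
  rw [← sdiff_union_inter A X, ← sdiff_union_inter B X, e1, e2]

theorem cross {X A B : Finset (Fin n)} (ha : A ∈ D q T X) (hb : B ∈ D q T Xᶜ) : ¬A ⊆ B := by
  intro h
  have a1 := (mem_filter.1 ha).2.1
  have b1 := (mem_filter.1 hb).2.2.1
  have := card_le_card (inter_subset_inter_right (u := X) h)
  rw [sdiff_compl, inf_eq_inter] at b1
  generalize #(B ∩ Xᶜ) / q = z at b1
  omega

theorem tag {k : ℕ} (hq : q.Prime) (h1 : k < q) (h2 : q ≤ 2 * k) (hn : n < (k + 1) * (k + 1))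
    (X W : Finset (Fin n)) (a : 7 * k + 1 ≤ #(W ∩ X)) (b : 7 * k + 1 ≤ #(W \ X)) :
    ∃ A ∈ D q (3 * k) X, W ∩ X ⊆ A ∧ A ⊆ W := by
  have dv : ∀ m ≤ n, m / q < k + 1 := fun m hm =>
    (Nat.div_lt_iff_lt_mul hq.pos).2 (by nlinarith)
  have d := dv #(W ∩ X) (by simpa using card_le_univ (W ∩ X))
  have : NeZero q := ⟨hq.ne_zero⟩
  generalize hz : #(W ∩ X) / q = z at d
  have := cd (B := k + 1) hq (fun y : Fin n => ((y : ℕ) : ZMod q)) (fun R hR => by
    by_contra c
    push Not at c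
    have := card_le_card_of_injOn (s := R) (t := range (k + 1)) (fun y : Fin n => (y : ℕ) / q)
      (fun y _ => mem_coe.2 (mem_range.2 (dv y y.2.le))) fun x hx y hy e => by
        have := c x hx y hy
        rw [ZMod.natCast_eq_natCast_iff'] at this
        apply Fin.ext
        rw [← Nat.div_add_mod x q, ← Nat.div_add_mod y q, this, show (x : ℕ) / q = y / q from e]
    rw [card_range] at this
    omega) (3 * k - z) (W \ X) (by omega)
  rw [min_eq_left (by omega)] at this
  have u := eq_univ_of_card _ (le_antisymm (card_le_univ _) ((ZMod.card q).trans_le this))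
  obtain ⟨τ, hτ, e⟩ := mem_image.1 (u ▸ mem_univ ((#(W ∩ X) : ℕ) : ZMod q))
  obtain ⟨s, c⟩ := mem_powersetCard.1 hτ
  have e1 : (W ∩ X ∪ τ) ∩ X = W ∩ X := by
    ext x
    have := @s x
    simp only [mem_inter, mem_union, mem_sdiff] at this ⊢
    tauto
  have e2 : (W ∩ X ∪ τ) \ X = τ := by
    ext x
    have := @s x
    simp only [mem_inter, mem_union, mem_sdiff] at this ⊢
    tauto
  refine ⟨W ∩ X ∪ τ, mem_filter.2 ⟨mem_univ _, ?_⟩, subset_union_left,
    union_subset inter_subset_left (s.trans sdiff_subset)⟩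
  rw [e1, e2, hz]
  exact ⟨by omega, by omega, e⟩

theorem bad (hn : 2 ≤ n) (s : ℕ) (X : Finset (Fin n)) :
    #{W : Finset (Fin n) | #(W ∩ X) < s} ≤ 2 ^ #Xᶜ * n ^ s := by
  have : ({W : Finset (Fin n) | #(W ∩ X) < s} : Finset _) ⊆
      (Xᶜ.powerset ×ˢ (range s).biUnion fun j => powersetCard j univ).image
        fun p => p.1 ∪ p.2 := fun W hW =>
    mem_image.2 ⟨(W \ X, W ∩ X), mem_product.2 ⟨mem_powerset.2 fun x hx =>
      mem_compl.2 (mem_sdiff.1 hx).2, mem_biUnion.2 ⟨_, mem_range.2 (mem_filter.1 hW).2,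
        mem_powersetCard.2 ⟨subset_univ _, rfl⟩⟩⟩, sdiff_union_inter W X⟩
  refine (card_le_card this).trans (card_image_le.trans ?_)
  rw [card_product, card_powerset]
  refine Nat.mul_le_mul_left _ (card_biUnion_le.trans (le_trans (sum_le_sum fun j _ => ?_)
    (Nat.geomSum_lt hn fun j => mem_range.1).le))
  rw [card_powersetCard, card_univ, Fintype.card_fin]
  exact Nat.choose_le_pow n j

theorem result (n : ℕ) (hn : 2 ≤ n) : ∃ A : Finset (Finset (Fin n)),
    IsAntichain (· ⊆ ·) (A : Set (Finset (Fin n))) ∧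
      2 ^ n ≤ #(I A) + 2 ^ ((n + 1) / 2 + 1) * n ^ (7 * n.sqrt + 1) := by
  obtain ⟨q, hq, h1, h2⟩ := Nat.exists_prime_lt_and_le_two_mul n.sqrt (by
    rw [Ne, Nat.sqrt_eq_zero]; omega)
  obtain ⟨X, -, hX⟩ := exists_subset_card_eq (s := (univ : Finset (Fin n))) (n := n / 2)
    (by simp; omega)
  have hY : #Xᶜ = (n + 1) / 2 := by
    rw [card_compl, hX, Fintype.card_fin]
    omega
  set k := n.sqrt
  refine ⟨(D q (3 * k) X ∪ D q (3 * k) Xᶜ).image compl, ?_, ?_⟩
  · intro _ hA' _ hB' ne h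
    obtain ⟨A, hA, rfl⟩ := mem_image.1 hA'
    obtain ⟨B, hB, rfl⟩ := mem_image.1 hB'
    have h := compl_subset_compl.1 h
    rcases mem_union.1 hA with a | a <;> rcases mem_union.1 hB with b | b
    · exact ne (by rw [same _ _ b a h])
    · exact cross _ _ b (by rwa [compl_compl]) h
    · exact cross _ _ b a h
    · exact ne (by rw [same _ _ b a h])
  have : (univ : Finset (Finset (Fin n))) ⊆
      (I ((D q (3 * k) X ∪ D q (3 * k) Xᶜ).image compl)).image compl ∪
        ((univ.filter fun W => #(W ∩ X) < 7 * k + 1) ∪ univ.filter fun W => #(W ∩ Xᶜ) < 7 * k + 1) := by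
    intro W _
    simp only [mem_union, mem_filter, mem_univ, true_and]
    by_contra c
    push Not at c
    obtain ⟨c1, c2, c3⟩ := c
    obtain ⟨A, a1, a2, a3⟩ := tag q hq h1 h2 (Nat.lt_succ_sqrt n) X W c2
      (by rwa [sdiff_eq_inter_compl])
    obtain ⟨B, b1, b2, b3⟩ := tag q hq h1 h2 (Nat.lt_succ_sqrt n) Xᶜ W c3
      (by rwa [sdiff_compl])
    refine c1 (mem_image.2 ⟨_, mem_image.2 ⟨(Aᶜ, Bᶜ), mem_offDiag.2
      ⟨mem_image_of_mem _ (mem_union_left _ a1), mem_image_of_mem _ (mem_union_right _ b1),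
        fun e => cross _ _ a1 b1 (compl_injective e).subset⟩, rfl⟩, ?_⟩)
    rw [← compl_union, compl_compl]
    refine (union_subset a3 b3).antisymm fun x hx => ?_
    by_cases t : x ∈ X
    · exact mem_union_left _ (a2 (mem_inter.2 ⟨hx, t⟩))
    · exact mem_union_right _ (b2 (mem_inter.2 ⟨hx, mem_compl.2 t⟩))
  have := (card_le_card this).trans ((card_union_le _ _).trans
    (Nat.add_le_add card_image_le ((card_union_le _ _).trans
      (Nat.add_le_add (bad hn _ X) (bad hn _ Xᶜ)))))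
  rw [card_univ, Fintype.card_finset, Fintype.card_fin, compl_compl, hX, hY] at this
  have p : 2 ^ (n / 2) ≤ 2 ^ ((n + 1) / 2) := Nat.pow_le_pow_right (by omega) (by omega)
  rw [pow_succ 2]
  nlinarith [Nat.mul_le_mul_right (n ^ (7 * k + 1)) p]

end Pool.Agent.Results.MP_e9f532_co.Tagged
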